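import Pool.Agent.T2H86.TV.Stab

set_option autoImplicit false

/-!
# The stabiliser of the axis of a transvection in a dense subgroup of `SL(n, ℤ)`

Let `n ≥ 3`, let `H ≤ SL(n, ℤ)` contain a transvection `t = 1 + v φ` and an element `u` which
stabilises the line of `v` or the hyperplane `φ = 0` (for example an element commuting with `t`),
such that no nontrivial powers of `t` and `u` agree.  If `H` is Zariski dense then `H` has finite
index; if `H` is dense in the profinite topology then `H = SL(n, ℤ)`.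
-/

namespace Pool.Agent.Results.MP_a2a22c_al.AxisStabilizer

open Matrix

variable {n : ℕ}

/-- `H` is Zariski dense: every polynomial in the `n²` matrix entries, with rational coefficients,
which vanishes on `H` vanishes on `SL(n, ℤ)` -/
def ZariskiDense (H : Subgroup (SpecialLinearGroup (Fin n) ℤ)) : Prop :=
  ∀ P : MvPolynomial (Fin n × Fin n) ℚ,
    (∀ h ∈ H, MvPolynomial.eval (fun ij => (((h : Matrix (Fin n) (Fin n) ℤ) ij.1 ij.2 : ℤ) : ℚ)) P = 0) →
    ∀ g : SpecialLinearGroup (Fin n) ℤ,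
      MvPolynomial.eval (fun ij => (((g : Matrix (Fin n) (Fin n) ℤ) ij.1 ij.2 : ℤ) : ℚ)) P = 0

/-- `H` is profinitely dense: it has the same image as `SL(n, ℤ)` under every homomorphism to a
finite group, that is, the map of profinite completions is onto -/
def ProfinitelyDense (H : Subgroup (SpecialLinearGroup (Fin n) ℤ)) : Prop :=
  ∀ (Q : Type) [Group Q] [Finite Q] (f : SpecialLinearGroup (Fin n) ℤ →* Q)
    (g : SpecialLinearGroup (Fin n) ℤ), ∃ h ∈ H, f h = f g

/-- `t = 1 + v φ` is a transvection of `H`; `u ∈ H` maps `v` to `± v` or `φ` to `± φ` -/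
theorem result (n : ℕ) (hn : 3 ≤ n) (H : Subgroup (SpecialLinearGroup (Fin n) ℤ))
    (t u : SpecialLinearGroup (Fin n) ℤ) (ht : t ∈ H) (hu : u ∈ H)
    (v φ : Fin n → ℤ) (hv : v ≠ 0) (hφ : φ ≠ 0)
    (htv : (t : Matrix (Fin n) (Fin n) ℤ) = 1 + vecMulVec v φ)
    (huv : (u : Matrix (Fin n) (Fin n) ℤ) *ᵥ v = v ∨ (u : Matrix (Fin n) (Fin n) ℤ) *ᵥ v = -v ∨
      φ ᵥ* (u : Matrix (Fin n) (Fin n) ℤ) = φ ∨ φ ᵥ* (u : Matrix (Fin n) (Fin n) ℤ) = -φ)
    (hut : ∀ a b : ℤ, u ^ a = t ^ b → a = 0 ∧ b = 0) :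
    (ZariskiDense H → H.FiniteIndex) ∧ (ProfinitelyDense H → H = ⊤) := by
  have e1 : ∀ (c : ℤ), (u : Matrix (Fin n) (Fin n) ℤ) *ᵥ v = c • v →
      Pool.Agent.T2H86.TV.act (Pool.Agent.T2H86.TV.toQ u) (Pool.Agent.T2H86.TV.cst v) =
        (c : ℚ) • Pool.Agent.T2H86.TV.cst v := by
    intro c h
    ext i
    have h1 := congrFun h i
    simp only [mulVec, dotProduct, Pi.smul_apply, smul_eq_mul] at h1
    simp only [Pool.Agent.T2H86.TV.act, Pool.Agent.T2H86.TV.cst, mulVec, dotProduct,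
      Pool.Agent.T2H86.TV.toQ_coe, Pi.smul_apply, smul_eq_mul]
    exact_mod_cast h1
  have e2 : ∀ (c : ℤ), c * c = 1 → φ ᵥ* (u : Matrix (Fin n) (Fin n) ℤ) = c • φ →
      Pool.Agent.T2H86.TV.cact (Pool.Agent.T2H86.TV.toQ u) (Pool.Agent.T2H86.TV.cst φ) =
        (c : ℚ) • Pool.Agent.T2H86.TV.cst φ := by
    intro c hc h
    have h1 : Pool.Agent.T2H86.TV.cst φ ᵥ* (Pool.Agent.T2H86.TV.toQ u : Matrix (Fin n) (Fin n) ℚ) =
        (c : ℚ) • Pool.Agent.T2H86.TV.cst φ := by
      ext i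
      have h1 := congrFun h i
      simp only [vecMul, dotProduct, Pi.smul_apply, smul_eq_mul] at h1
      simp only [Pool.Agent.T2H86.TV.cst, vecMul, dotProduct,
        Pool.Agent.T2H86.TV.toQ_coe, Pi.smul_apply, smul_eq_mul]
      exact_mod_cast h1
    have hc' : (c : ℚ) * c = 1 := by exact_mod_cast hc
    have h2 : Pool.Agent.T2H86.TV.cst φ =
        (c : ℚ) • (Pool.Agent.T2H86.TV.cst φ ᵥ* (Pool.Agent.T2H86.TV.toQ u : Matrix (Fin n) (Fin n) ℚ)) := by
      rw [h1, smul_smul, hc', one_smul]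
    rw [Pool.Agent.T2H86.TV.cact]
    conv_lhs => rw [h2]
    rw [smul_vecMul, vecMul_vecMul, Pool.Agent.T2H86.TV.coe_mul_inv, vecMul_one]
  have good : Pool.Agent.T2H86.TV.ZariskiDense H → Pool.Agent.T2H86.TV.Good H := by
    intro hH
    rcases huv with h | h | h | h
    · exact Pool.Agent.T2H86.TV.good_of_line hn hH ht hu hv hφ htv
        (e1 1 (by rw [h, one_smul])) hut
    · exact Pool.Agent.T2H86.TV.good_of_line hn hH ht hu hv hφ htv
        (e1 (-1) (by rw [h, neg_one_smul])) hut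
    · exact Pool.Agent.T2H86.TV.good_of_form hn hH ht hu hv hφ htv (c := ((1 : ℤ) : ℚ))
        (by norm_num) (e2 1 (by norm_num) (by rw [h, one_smul])) hut
    · exact Pool.Agent.T2H86.TV.good_of_form hn hH ht hu hv hφ htv (c := ((-1 : ℤ) : ℚ))
        (by norm_num) (e2 (-1) (by norm_num) (by rw [h, neg_one_smul])) hut
  have key : ZariskiDense H → H.FiniteIndex := fun hH =>
    Pool.Agent.T2H86.TV.finiteIndex_of_good hn hH (good hH)
  exact ⟨key, fun hH => Pool.Agent.T2H86.TV.eq_top_of_profinitelyDense hH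
    (key (Pool.Agent.T2H86.TV.zariskiDense_of_profinitelyDense hH))⟩

end Pool.Agent.Results.MP_a2a22c_al.AxisStabilizer
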