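import Pool.Agent.T2H86.TV.Close

set_option autoImplicit false

/-!
# Two close transvections in a dense subgroup of `SL(n, ℤ)`

Let `n ≥ 3` and let `H ≤ SL(n, ℤ)` contain two transvections `s, t`, no nontrivial powers of which
agree, with `|tr (s t) - n| ≤ 4`.  If `H` is Zariski dense then `H` has finite index; if `H` is dense
in the profinite topology (for instance if the inclusion induces an isomorphism of profinite
completions) then `H = SL(n, ℤ)`.  No finite generation is assumed.
-/

namespace Pool.Agent.Results.MP_a2a22c_al.CloseTransvections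

open Matrix

variable {n : ℕ}

/-- a transvection of `SL(n, ℤ)`: a matrix `1 + v φ` with a nonzero column `v` and a nonzero
row `φ` (the determinant being `1`, one has `φ v = 0`) -/
def IsTransvection (g : SpecialLinearGroup (Fin n) ℤ) : Prop :=
  ∃ v φ : Fin n → ℤ, v ≠ 0 ∧ φ ≠ 0 ∧ (g : Matrix (Fin n) (Fin n) ℤ) = 1 + vecMulVec v φ

/-- `H` is Zariski dense: every polynomial in the `n²` matrix entries, with rational coefficients,
which vanishes on `H` vanishes on `SL(n, ℤ)` -/
def ZariskiDense (H : Subgroup (SpecialLinearGroup (Fin n) ℤ)) : Prop :=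
  ∀ P : MvPolynomial (Fin n × Fin n) ℚ,
    (∀ h ∈ H, MvPolynomial.eval (fun ij => (((h : Matrix (Fin n) (Fin n) ℤ) ij.1 ij.2 : ℤ) : ℚ)) P = 0) →
    ∀ g : SpecialLinearGroup (Fin n) ℤ,
      MvPolynomial.eval (fun ij => (((g : Matrix (Fin n) (Fin n) ℤ) ij.1 ij.2 : ℤ) : ℚ)) P = 0

/-- `H` is profinitely dense: it has the same image as `SL(n, ℤ)` under every homomorphism to a
finite group, that is, the map of profinite completions is onto -/
def ProfinitelyDense (H : Subgroup (SpecialLinearGroup (Fin n) ℤ)) : Prop :=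
  ∀ (Q : Type) [Group Q] [Finite Q] (f : SpecialLinearGroup (Fin n) ℤ →* Q)
    (g : SpecialLinearGroup (Fin n) ℤ), ∃ h ∈ H, f h = f g

theorem result (n : ℕ) (hn : 3 ≤ n) (H : Subgroup (SpecialLinearGroup (Fin n) ℤ))
    (s t : SpecialLinearGroup (Fin n) ℤ) (hs : s ∈ H) (ht : t ∈ H)
    (hs' : IsTransvection s) (ht' : IsTransvection t)
    (hst : ∀ a b : ℤ, s ^ a = t ^ b → a = 0 ∧ b = 0)
    (htr : |((s * t : SpecialLinearGroup (Fin n) ℤ) : Matrix (Fin n) (Fin n) ℤ).trace - n| ≤ 4) :
    (ZariskiDense H → H.FiniteIndex) ∧ (ProfinitelyDense H → H = ⊤) := by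
  obtain ⟨v, φ, hv, hφ, es⟩ := hs'
  obtain ⟨w, ψ, hw, hψ, et⟩ := ht'
  have key : ZariskiDense H → H.FiniteIndex := fun hH =>
    Pool.Agent.T2H86.TV.finiteIndex_of_good hn hH
      (Pool.Agent.T2H86.TV.good_of_close hn hH hs ht hv hφ hw hψ es et hst htr)
  exact ⟨key, fun hH => Pool.Agent.T2H86.TV.eq_top_of_profinitelyDense hH
    (key (Pool.Agent.T2H86.TV.zariskiDense_of_profinitelyDense hH))⟩

end Pool.Agent.Results.MP_a2a22c_al.CloseTransvections
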