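import Pool.Agent.T2H86.TV.Corner

set_option autoImplicit false

/-!
# Dense subgroups of `SL(n, ℤ)` containing a finite index subgroup of the corner `SL(2, ℤ)`

Let `n ≥ 3` and let `H ≤ SL(n, ℤ)` meet the corner `SL(2, ℤ)` (the matrices which differ from the
identity only in the upper left `2 × 2` block) in a subgroup of finite index of the corner.
If `H` is Zariski dense then `H` has finite index in `SL(n, ℤ)`; if `H` is dense in the profinite
topology then `H = SL(n, ℤ)`.
-/

namespace Pool.Agent.Results.MP_a2a22c_al.CornerSL2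

open Matrix

variable {n : ℕ}

/-- `H` is Zariski dense: every polynomial in the `n²` matrix entries, with rational coefficients,
which vanishes on `H` vanishes on `SL(n, ℤ)` -/
def ZariskiDense (H : Subgroup (SpecialLinearGroup (Fin n) ℤ)) : Prop :=
  ∀ P : MvPolynomial (Fin n × Fin n) ℚ,
    (∀ h ∈ H, MvPolynomial.eval (fun ij => (((h : Matrix (Fin n) (Fin n) ℤ) ij.1 ij.2 : ℤ) : ℚ)) P = 0) →
    ∀ g : SpecialLinearGroup (Fin n) ℤ,
      MvPolynomial.eval (fun ij => (((g : Matrix (Fin n) (Fin n) ℤ) ij.1 ij.2 : ℤ) : ℚ)) P = 0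

/-- `H` is profinitely dense: it has the same image as `SL(n, ℤ)` under every homomorphism to a
finite group, that is, the map of profinite completions is onto -/
def ProfinitelyDense (H : Subgroup (SpecialLinearGroup (Fin n) ℤ)) : Prop :=
  ∀ (Q : Type) [Group Q] [Finite Q] (f : SpecialLinearGroup (Fin n) ℤ →* Q)
    (g : SpecialLinearGroup (Fin n) ℤ), ∃ h ∈ H, f h = f g

theorem mem_iff (g : SpecialLinearGroup (Fin n) ℤ) :
    (∀ i j : Fin n, (2 ≤ (i : ℕ) ∨ 2 ≤ (j : ℕ)) →
      (g : Matrix (Fin n) (Fin n) ℤ) i j = (1 : Matrix (Fin n) (Fin n) ℤ) i j) ↔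
    (∀ i : Fin n, 2 ≤ (i : ℕ) → (Pi.single i 1 : Fin n → ℤ) ᵥ* (g : Matrix (Fin n) (Fin n) ℤ) = Pi.single i 1) ∧
    (∀ j : Fin n, 2 ≤ (j : ℕ) → (g : Matrix (Fin n) (Fin n) ℤ) *ᵥ (Pi.single j 1 : Fin n → ℤ) = Pi.single j 1) := by
  constructor
  · intro h
    constructor
    · intro i hi
      ext j
      rw [single_one_vecMul, Matrix.row_apply, h i j (Or.inl hi), Matrix.one_apply, Pi.single_apply]
      simp [eq_comm]
    · intro j hj
      ext i
      rw [mulVec_single_one, Matrix.col_apply, h i j (Or.inr hj), Matrix.one_apply, Pi.single_apply]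
  · rintro ⟨h1, h2⟩ i j (h | h)
    · have := congrFun (h1 i h) j
      rw [single_one_vecMul, Matrix.row_apply] at this
      rw [this, Matrix.one_apply, Pi.single_apply]
      simp [eq_comm]
    · have := congrFun (h2 j h) i
      rw [mulVec_single_one, Matrix.col_apply] at this
      rw [this, Matrix.one_apply, Pi.single_apply]

/-- the corner `SL(2, ℤ)`: the matrices of determinant `1` which differ from the identity only in the
upper left `2 × 2` block -/
def corner (n : ℕ) : Subgroup (SpecialLinearGroup (Fin n) ℤ) where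
  carrier := {g | ∀ i j : Fin n, (2 ≤ (i : ℕ) ∨ 2 ≤ (j : ℕ)) →
    (g : Matrix (Fin n) (Fin n) ℤ) i j = (1 : Matrix (Fin n) (Fin n) ℤ) i j}
  one_mem' := fun _ _ _ => rfl
  mul_mem' := by
    intro a b ha hb
    rw [Set.mem_ofPred_eq, mem_iff] at ha hb ⊢
    rw [Pool.Agent.T2H86.TV.sl_mul]
    exact ⟨fun i hi => by rw [← vecMul_vecMul, ha.1 i hi, hb.1 i hi],
      fun j hj => by rw [← mulVec_mulVec, hb.2 j hj, ha.2 j hj]⟩
  inv_mem' := by
    intro a ha
    rw [Set.mem_ofPred_eq, mem_iff] at ha ⊢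
    refine ⟨fun i hi => ?_, fun j hj => ?_⟩
    · conv_lhs => rw [← ha.1 i hi]
      rw [vecMul_vecMul, Pool.Agent.T2H86.TV.coe_mul_inv, vecMul_one]
    · conv_lhs => rw [← ha.2 j hj]
      rw [mulVec_mulVec, Pool.Agent.T2H86.TV.coe_inv_mul, one_mulVec]

/-- `H ∩ corner` has finite index in the corner -/
theorem result (n : ℕ) (hn : 3 ≤ n) (H : Subgroup (SpecialLinearGroup (Fin n) ℤ))
    (hc : (H.subgroupOf (corner n)).FiniteIndex) :
    (ZariskiDense H → H.FiniteIndex) ∧ (ProfinitelyDense H → H = ⊤) := by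
  let i0 : Fin n := ⟨0, by omega⟩
  let i1 : Fin n := ⟨1, by omega⟩
  have h01 : i0 ≠ i1 := by
    intro h
    have := congrArg Fin.val h
    simp [i0, i1] at this
  have good : ZariskiDense H → Pool.Agent.T2H86.TV.Good H := by
    intro hH
    refine Pool.Agent.T2H86.TV.good_of_corner hn hH h01 ?_
    intro p q _
    set g := Pool.Agent.T2H86.TV.tv (Pi.single i0 p + Pi.single i1 q : Fin n → ℤ)
      (Pi.single i0 (-q) + Pi.single i1 p) (Pool.Agent.T2H86.TV.cdot h01 p q) with hg
    have hgc : g ∈ corner n := by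
      intro i j hij
      rw [hg, Pool.Agent.T2H86.TV.tv_coe, Matrix.add_apply, vecMulVec_apply]
      have h2 : (Pi.single i0 p + Pi.single i1 q : Fin n → ℤ) i *
          (Pi.single i0 (-q) + Pi.single i1 p : Fin n → ℤ) j = 0 := by
        have h3 : ∀ (l : Fin n) (a b : ℤ), 2 ≤ (l : ℕ) →
            (Pi.single i0 a + Pi.single i1 b : Fin n → ℤ) l = 0 := by
          intro l a b hl
          have hl0 : l ≠ i0 := by
            intro h
            rw [h] at hl
            simp [i0] at hl
          have hl1 : l ≠ i1 := by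
            intro h
            rw [h] at hl
            simp [i1] at hl
          rw [Pi.add_apply, Pi.single_eq_of_ne hl0, Pi.single_eq_of_ne hl1, add_zero]
        rcases hij with h | h
        · rw [h3 i _ _ h, zero_mul]
        · rw [h3 j _ _ h, mul_zero]
      rw [h2, add_zero]
    obtain ⟨k, hk, -, hk2⟩ := Subgroup.exists_pow_mem_of_index_ne_zero hc.index_ne_zero
      (⟨g, hgc⟩ : corner n)
    exact ⟨k, hk, by rw [Subgroup.mem_subgroupOf] at hk2; exact hk2⟩
  have key : ZariskiDense H → H.FiniteIndex := fun hH =>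
    Pool.Agent.T2H86.TV.finiteIndex_of_good hn hH (good hH)
  exact ⟨key, fun hH => Pool.Agent.T2H86.TV.eq_top_of_profinitelyDense hH
    (key (Pool.Agent.T2H86.TV.zariskiDense_of_profinitelyDense hH))⟩

end Pool.Agent.Results.MP_a2a22c_al.CornerSL2
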