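import Pool.Agent.T2H86.TV.Three

set_option autoImplicit false

/-!
# Dense subgroups of `SL(3, ℤ)` containing a unipotent `ℤ²`

Let `H ≤ SL(3, ℤ)` contain two commuting unipotent matrices `x, y`, no nontrivial powers of which
agree.  If `H` is Zariski dense then `H` has finite index in `SL(3, ℤ)`; if `H` is dense in the
profinite topology then `H = SL(3, ℤ)`.
-/

namespace Pool.Agent.Results.MP_a2a22c_al.UnipotentRankTwo

open Matrix

/-- `H` is Zariski dense: every polynomial in the `9` matrix entries, with rational coefficients,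
which vanishes on `H` vanishes on `SL(3, ℤ)` -/
def ZariskiDense (H : Subgroup (SpecialLinearGroup (Fin 3) ℤ)) : Prop :=
  ∀ P : MvPolynomial (Fin 3 × Fin 3) ℚ,
    (∀ h ∈ H, MvPolynomial.eval (fun ij => (((h : Matrix (Fin 3) (Fin 3) ℤ) ij.1 ij.2 : ℤ) : ℚ)) P = 0) →
    ∀ g : SpecialLinearGroup (Fin 3) ℤ,
      MvPolynomial.eval (fun ij => (((g : Matrix (Fin 3) (Fin 3) ℤ) ij.1 ij.2 : ℤ) : ℚ)) P = 0

/-- `H` is profinitely dense: it has the same image as `SL(3, ℤ)` under every homomorphism to a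
finite group, that is, the map of profinite completions is onto -/
def ProfinitelyDense (H : Subgroup (SpecialLinearGroup (Fin 3) ℤ)) : Prop :=
  ∀ (Q : Type) [Group Q] [Finite Q] (f : SpecialLinearGroup (Fin 3) ℤ →* Q)
    (g : SpecialLinearGroup (Fin 3) ℤ), ∃ h ∈ H, f h = f g

/-- `x` and `y` are commuting unipotents without common powers -/
theorem result (H : Subgroup (SpecialLinearGroup (Fin 3) ℤ))
    (x y : SpecialLinearGroup (Fin 3) ℤ) (hx : x ∈ H) (hy : y ∈ H)
    (hx3 : ((x : Matrix (Fin 3) (Fin 3) ℤ) - 1) ^ 3 = 0)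
    (hy3 : ((y : Matrix (Fin 3) (Fin 3) ℤ) - 1) ^ 3 = 0)
    (hxy : x * y = y * x) (hne : ∀ a b : ℤ, x ^ a = y ^ b → a = 0 ∧ b = 0) :
    (ZariskiDense H → H.FiniteIndex) ∧ (ProfinitelyDense H → H = ⊤) := by
  have cast : ∀ g : SpecialLinearGroup (Fin 3) ℤ, ((g : Matrix (Fin 3) (Fin 3) ℤ) - 1) ^ 3 = 0 →
      Pool.Agent.T2H86.TV.nil g * Pool.Agent.T2H86.TV.nil g * Pool.Agent.T2H86.TV.nil g = 0 := by
    intro g hg
    have h1 : Pool.Agent.T2H86.TV.nil g =
        ((g : Matrix (Fin 3) (Fin 3) ℤ) - 1).map (Int.castRingHom ℚ) := by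
      ext i j
      rw [Pool.Agent.T2H86.TV.nil, Matrix.sub_apply, Pool.Agent.T2H86.TV.toQ_coe, Matrix.map_apply,
        Matrix.sub_apply, Matrix.one_apply, Matrix.one_apply]
      split_ifs <;> simp
    rw [h1, ← Matrix.map_mul, ← Matrix.map_mul, ← pow_two, ← pow_succ, hg]
    ext i j
    simp
  have key : ZariskiDense H → H.FiniteIndex := fun hH =>
    Pool.Agent.T2H86.TV.finiteIndex_of_good le_rfl hH
      (Pool.Agent.T2H86.TV.good_three hH hx hy hxy (cast x hx3) (cast y hy3) hne)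
  exact ⟨key, fun hH => Pool.Agent.T2H86.TV.eq_top_of_profinitelyDense hH
    (key (Pool.Agent.T2H86.TV.zariskiDense_of_profinitelyDense hH))⟩

end Pool.Agent.Results.MP_a2a22c_al.UnipotentRankTwo
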